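import Pool.Agent.H2.Fac

set_option autoImplicit false

namespace Pool.Agent.Results.MP_bc5942_al.NoPrincipal
open Pool.Agent.H2.Fac

/-- `H` has a principal series: a finite strictly increasing chain of normal subgroups from the
trivial subgroup to `H` with no normal subgroup strictly between consecutive members. -/
def HasPrincipal (H : Type) [Group H] : Prop :=
  ∃ (n : ℕ) (s : Fin (n + 1) → Subgroup H), s 0 = ⊥ ∧ s (Fin.last n) = ⊤ ∧ (∀ i, (s i).Normal) ∧
    ∀ i : Fin n, s i.castSucc < s i.succ ∧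
      ∀ M : Subgroup H, M.Normal → s i.castSucc ≤ M → M ≤ s i.succ →
        M = s i.castSucc ∨ M = s i.succ

theorem result :
    ∃ (G : Type) (_ : Group G) (A B : Subgroup G),
      (∀ g : G, ∃ a ∈ A, ∃ b ∈ B, g = a * b) ∧ HasPrincipal A ∧ HasPrincipal B ∧
        ¬ HasPrincipal G := by
  have hs : ∀ A : Subgroup G, IsSimpleGroup A → HasPrincipal A := fun A hA =>
    ⟨1, ![⊥, ⊤], rfl, rfl, Fin.forall_fin_two.2 ⟨Subgroup.normal_bot, Subgroup.normal_top⟩,
      Fin.forall_fin_one.2 ⟨bot_lt_top, fun M hM _ _ => hM.eq_bot_or_eq_top⟩⟩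
  refine ⟨G, inferInstance, _, _, fact, hs _ inferInstance, hs _ inferInstance, ?_⟩
  rintro ⟨n, s, h0, h1, h2, h3⟩
  refine nochain n s h0 h1 fun i k => ?_
  have := h2 i.succ
  have := h2 i.castSucc
  refine ((h3 i).2 ((Nk k ⊓ s i.succ) ⊔ _) inferInstance le_sup_right
    (sup_le inf_le_right (h3 i).1.le)).imp (fun h5 x hx hx' => ?_) fun h5 x hx => ?_
  · exact (le_sup_left.trans h5.le : Nk k ⊓ s i.succ ≤ _) ⟨hx, hx'⟩
  · obtain ⟨y, hy, z, hz, h6⟩ := Subgroup.mem_sup_of_normal_left.1 (h5.ge hx)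
    exact ⟨y, hy.1, z, hz, h6⟩

end Pool.Agent.Results.MP_bc5942_al.NoPrincipal
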